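import Pool.Agent.N295.SR.Stm
import Pool.Agent.N273.LT.St3

/-!
# The numbers of sign changes
-/

set_option autoImplicit false

open MeasureTheory Set Real

namespace Pool.Agent.N427.SR

open Pool.Agent.N295.SR
open Pool.Agent.N273.LT (Alt sc)
open Pool.Agent.Y291.DB (Sol um)

/-- The exponential. -/
noncomputable def ex (k : ℤ) (y : ℝ) : ℂ := Complex.exp (k * y * Complex.I)

theorem ex_norm (k : ℤ) (y : ℝ) : ‖ex k y‖ = 1 := by
  unfold ex
  have h : (k : ℂ) * (y : ℂ) * Complex.I = (((k : ℝ) * y : ℝ) : ℂ) * Complex.I := by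
    push_cast
    ring
  rw [h, Complex.norm_exp_ofReal_mul_I]

theorem ex_deriv (k : ℤ) (y : ℝ) :
    HasDerivAt (fun y : ℝ => ex k y) ((k : ℂ) * Complex.I * ex k y) y := by
  unfold ex
  have h1 : HasDerivAt (fun y : ℝ => (k : ℂ) * (y : ℂ) * Complex.I)
      ((k : ℂ) * 1 * Complex.I) y :=
    ((Complex.ofRealCLM.hasDerivAt (x := y)).const_mul (k : ℂ)).mul_const Complex.I
  have h2 := h1.cexp
  convert! h2 using 1
  ring

theorem ex_per (k : ℤ) (m : ℕ) (y : ℝ) : ex k (y + 2 * π * m) = ex k y := by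
  unfold ex
  rw [show (k : ℂ) * ((y + 2 * π * m : ℝ) : ℂ) * Complex.I =
    (k : ℂ) * y * Complex.I + ((k * m : ℤ) : ℂ) * (2 * π * Complex.I) by
    push_cast
    ring, Complex.exp_add, Complex.exp_int_mul_two_pi_mul_I, mul_one]

theorem re_deriv {f : ℝ → ℂ} {f' : ℂ} {x : ℝ} (h : HasDerivAt f f' x) :
    HasDerivAt (fun x => (f x).re) f'.re x :=
  (Complex.reCLM.hasFDerivAt.comp_hasDerivAt x h)

theorem um_bdd {φ : ℝ → ℝ → ℝ} {B : ℝ} (hB : ∀ x y, |φ x y| ≤ B) (k : ℤ) (x : ℝ) :
    ‖um φ k x‖ ≤ B := by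
  unfold um
  have h1 : ‖∫ y in (0 : ℝ)..(2 * π), (φ x y : ℂ) * Pool.Agent.Y291.DB.ek k y‖ ≤
      B * |2 * π - 0| := by
    refine intervalIntegral.norm_integral_le_of_norm_le_const fun y _ => ?_
    have h2 : ‖Pool.Agent.Y291.DB.ek k y‖ = 1 := by
      unfold Pool.Agent.Y291.DB.ek
      have h : -((k : ℂ) * (y : ℂ) * Complex.I) = ((-((k : ℝ) * y) : ℝ) : ℂ) * Complex.I := by
        push_cast
        ring
      rw [h, Complex.norm_exp_ofReal_mul_I]
    rw [norm_mul, h2, mul_one, Complex.norm_real]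
    exact hB x y
  have hpi : 0 < 2 * π := by positivity
  rw [sub_zero, abs_of_pos hpi] at h1
  rw [norm_mul, Complex.norm_real, Real.norm_of_nonneg (by positivity)]
  calc 1 / (2 * π) * ‖∫ y in (0 : ℝ)..(2 * π), (φ x y : ℂ) * Pool.Agent.Y291.DB.ek k y‖
      ≤ 1 / (2 * π) * (B * (2 * π)) := by gcongr
    _ = B := by field_simp

/-- The sum over the modes, with an enumeration. -/
theorem sum_enum {s : Finset ℤ} (g : ℤ → ℝ) :
    ∑ i : Fin s.card, g (s.equivFin.symm i) = ∑ k ∈ s, g k := by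
  rw [Equiv.sum_comp s.equivFin.symm (fun k : s => g k)]
  exact Finset.sum_coe_sort s g

theorem CNT : S_LINE → S_CNT := by
  intro hL
  refine ⟨100, by norm_num, fun D q K φ φx φxx φy φyy hD hC hq0 hqD hKD => ?_⟩
  obtain ⟨hS, hper, ⟨B, hB⟩, hmod⟩ := hC
  set s : Finset ℤ := Finset.Icc (-(K : ℤ)) K with hs
  have hmem : ∀ i : Fin s.card, |((s.equivFin.symm i : ℤ) : ℝ)| ≤ K := by
    intro i
    have h1 := Finset.mem_Icc.1 (s.equivFin.symm i).2
    have h2 : |(s.equivFin.symm i : ℤ)| ≤ K := abs_le.2 h1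
    exact_mod_cast h2
  have hre : ∀ x y, φ x y = ∑ k ∈ s, (um φ k x * ex k y).re := by
    intro x y
    have h1 := Pool.Agent.Y291.DB.inversion hS hper x (hmod x) y
    have h2 := congrArg Complex.re h1
    rw [Complex.ofReal_re, Complex.re_sum] at h2
    exact h2
  have hsD : 0 ≤ Real.sqrt D := Real.sqrt_nonneg D
  refine ⟨?_, ?_⟩
  · intro x a b n hab hA
    set m : ℕ := ⌊(b - a) / (2 * π)⌋₊ + 1 with hm
    have hpi : 0 < 2 * π := by positivity
    have hm1 : b - a ≤ 2 * π * m := by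
      have h1 := (Nat.lt_floor_add_one ((b - a) / (2 * π))).le
      rw [div_le_iff₀ hpi] at h1
      rw [hm]
      push_cast
      linarith
    have hm2 : 2 * π * m ≤ b - a + 2 * π := by
      have h1 := Nat.floor_le (div_nonneg (sub_nonneg.2 hab) hpi.le)
      rw [le_div_iff₀ hpi] at h1
      rw [hm]
      push_cast
      linarith
    have hm0 : (0 : ℝ) < m := by
      rw [hm]
      positivity
    have hK0 : (0 : ℝ) ≤ K := Nat.cast_nonneg K
    have hst := Pool.Agent.N273.LT.stSturm s.card (2 * π * m) ((K : ℝ) ^ 2)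
      (1 / (2 * ((K : ℝ) + 1))) (fun _ => 0)
      (fun i => -((s.equivFin.symm i : ℤ) : ℝ) ^ 2)
      (fun i y => (um φ (s.equivFin.symm i : ℤ) x * ex (s.equivFin.symm i : ℤ) y).re)
      (fun i y => (um φ (s.equivFin.symm i : ℤ) x * (((s.equivFin.symm i : ℤ) : ℂ) * Complex.I *
        ex (s.equivFin.symm i : ℤ) y)).re)
      (by positivity) (by positivity) ?_ continuous_const (fun _ => rfl) ?_ ?_ ?_ ?_ a n ?_
    · rw [mul_one_div, div_le_iff₀ (by positivity)] at hst
      have h2 : (n : ℝ) ≤ 2 * (b - a + 2 * π) * (2 * (1 + Real.sqrt D)) := by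
        calc (n : ℝ) ≤ 2 * (2 * π * m) * (2 * ((K : ℝ) + 1)) := hst
          _ ≤ 2 * (b - a + 2 * π) * (2 * (1 + Real.sqrt D)) := by
            apply mul_le_mul _ _ (by positivity) (by linarith)
            · linarith
            · linarith
      refine h2.trans ?_
      have hpi4 := Real.pi_le_four
      have h3 : 4 * (b - a + 2 * π) ≤ 100 * (1 + (b - a)) := by linarith
      calc 2 * (b - a + 2 * π) * (2 * (1 + Real.sqrt D))
          = 4 * (b - a + 2 * π) * (1 + Real.sqrt D) := by ring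
        _ ≤ 100 * (1 + (b - a)) * (1 + Real.sqrt D) := by gcongr
        _ = _ := by ring
    · rw [div_pow, one_pow, div_mul_eq_mul_div, one_mul, div_le_div_iff₀ (by positivity)
        (by norm_num)]
      nlinarith
    · intro i _
      rw [sub_zero, abs_neg, abs_of_nonneg (sq_nonneg _), ← sq_abs]
      exact pow_le_pow_left₀ (abs_nonneg _) (hmem i) 2
    · intro i y
      exact re_deriv ((ex_deriv _ y).const_mul _)
    · intro i y
      have h1 := re_deriv (((ex_deriv (s.equivFin.symm i : ℤ) y).const_mul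
        (((s.equivFin.symm i : ℤ) : ℂ) * Complex.I)).const_mul (um φ (s.equivFin.symm i : ℤ) x))
      refine h1.congr_deriv ?_
      have h2 : um φ (s.equivFin.symm i : ℤ) x * (((s.equivFin.symm i : ℤ) : ℂ) * Complex.I *
          (((s.equivFin.symm i : ℤ) : ℂ) * Complex.I * ex (s.equivFin.symm i : ℤ) y)) =
          ((-((s.equivFin.symm i : ℤ) : ℝ) ^ 2 - 0 : ℝ) : ℂ) *
            (um φ (s.equivFin.symm i : ℤ) x * ex (s.equivFin.symm i : ℤ) y) := by
        have hI : Complex.I * Complex.I = -1 := Complex.I_mul_I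
        push_cast
        linear_combination (um φ (s.equivFin.symm i : ℤ) x * ((s.equivFin.symm i : ℤ) : ℂ) ^ 2 *
          ex (s.equivFin.symm i : ℤ) y) * hI
      rw [h2, Complex.re_ofReal_mul]
    · intro i y
      rw [ex_per]
    · obtain ⟨t, h1, h2, h3⟩ := hA
      refine ⟨t, h1, fun i hi => ?_, fun i hi => ?_⟩
      · have h4 := h2 i hi
        exact ⟨h4.1.le, by linarith [h4.2]⟩
      · have h5 : ∀ y, ∑ i : Fin s.card, (um φ (s.equivFin.symm i : ℤ) x *
            ex (s.equivFin.symm i : ℤ) y).re = φ x y := by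
          intro y
          rw [hre x y]
          exact sum_enum fun k => (um φ k x * ex k y).re
        show (∑ _, _) * (∑ _, _) < 0
        rw [h5, h5]
        exact h3 i hi
  · intro y n hA
    refine hL s.card D q (fun i => ((s.equivFin.symm i : ℤ) : ℝ) ^ 2)
      (fun i x => (um φ (s.equivFin.symm i : ℤ) x * ex (s.equivFin.symm i : ℤ) y).re)
      (fun i x => (um φx (s.equivFin.symm i : ℤ) x * ex (s.equivFin.symm i : ℤ) y).re)
      hD hS.qc hq0 hqD ?_ ?_ ?_ ?_ n ?_
    · intro i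
      by_cases h : (s.equivFin.symm i : ℤ) = 0
      · left
        rw [h]
        norm_num
      · right
        have h1 : 1 ≤ |(s.equivFin.symm i : ℤ)| := Int.one_le_abs h
        have h2 : (1 : ℝ) ≤ |((s.equivFin.symm i : ℤ) : ℝ)| := by exact_mod_cast h1
        rw [← sq_abs]
        nlinarith
    · intro i x
      exact re_deriv ((Pool.Agent.Y291.DB.um_d1 hS hper _ x).mul_const _)
    · intro i x
      have h1 := re_deriv ((Pool.Agent.Y291.DB.um_d2 hS hper (s.equivFin.symm i : ℤ) x).mul_const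
        (ex (s.equivFin.symm i : ℤ) y))
      refine h1.congr_deriv ?_
      rw [mul_assoc, Complex.re_ofReal_mul]
    · intro i
      refine ⟨B, fun x => ?_⟩
      refine (Complex.abs_re_le_norm _).trans ?_
      rw [norm_mul, ex_norm, mul_one]
      exact um_bdd hB _ x
    · obtain ⟨t, h1, h2, h3⟩ := hA
      refine ⟨t, h1, h2, fun i hi => ?_⟩
      have h5 : ∀ x, ∑ i : Fin s.card, (um φ (s.equivFin.symm i : ℤ) x *
            ex (s.equivFin.symm i : ℤ) y).re = φ x y := by
          intro x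
          rw [hre x y]
          exact sum_enum fun k => (um φ k x * ex k y).re
      show (∑ _, _) * (∑ _, _) < 0
      rw [h5, h5]
      exact h3 i hi

end Pool.Agent.N427.SR
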